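import Pool.Agent.Lib.H30D.C4
import Pool.Agent.Lib.H70H.K1

/-!
# H98TF, file N: the complex of the sets contained in a disconnected set of `G` is `(2n - 4 - |G|)`-acyclic
(Lemma D of helper33 and helper63)
-/

set_option autoImplicit false
set_option linter.unusedSectionVars false

namespace H98TF

open Finset H98P H98Z H98M H63F H30F H30D H70H

section ab

variable {E : Type*} [Fintype E] [DecidableEq E]

/-- Deletion and link of a vertex, truncated, all `k`. -/
theorem ack_vertex {k : ℕ} {K : Finset E → Prop} (hK : Dn K) (d : E) (h1 : ACk k fun s => K s ∧ d ∉ s)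
    (h2 : 1 ≤ k → ACk (k - 1) fun s => K (insert d s) ∧ d ∉ s) : ACk k K := by
  rcases k with _ | k
  · intro z hz hb
    obtain ⟨c, hc, hcb⟩ := h1 z (fun s hs => by
      obtain ⟨q1, q2⟩ := hz s hs
      have q3 : s = ∅ := card_eq_zero.1 (by omega)
      subst q3
      exact ⟨⟨q1, notMem_empty d⟩, q2⟩) hb
    exact ⟨c, fun s hs => ⟨(hc s hs).1.1, (hc s hs).2⟩, hcb⟩
  · exact ack_add hK d h1 (h2 (by omega))

end ab

variable {V : Type*} [Fintype V] [DecidableEq V]

/-- The sets `M ⊆ P` such that `M ∪ Z` lies in a disconnected set. -/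
def KK (G : Finset (Sym2 V)) (P Z M : Finset V) : Prop :=
  M ⊆ P ∧ ∃ W, M ∪ Z ⊆ W ∧ Disc W G

theorem kk_dn {G : Finset (Sym2 V)} {P Z : Finset V} : Dn (KK G P Z) := by
  rintro s t hst ⟨h1, W, h2, h3⟩
  exact ⟨hst.trans h1, W, (union_subset_union hst Subset.rfl).trans h2, h3⟩

/-- adjacency as a number -/
def ad (G : Finset (Sym2 V)) (x y : V) : ℕ := if s(x, y) ∈ G then 1 else 0

theorem ad_symm (G : Finset (Sym2 V)) (x y : V) : ad G x y = ad G y x := by
  unfold ad
  rw [Sym2.eq_swap]

theorem ad_self {G : Finset (Sym2 V)} (hG : ∀ e ∈ G, ¬ e.IsDiag) (x : V) : ad G x x = 0 := by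
  unfold ad
  rw [if_neg]
  exact fun h => hG _ h (by simp)

/-- twice the number of edges inside `P` -/
def SS (G : Finset (Sym2 V)) (P : Finset V) : ℕ := ∑ x ∈ P, ∑ y ∈ P, ad G x y

/-- the number of edges between `J` and `P` -/
def TT (G : Finset (Sym2 V)) (J P : Finset V) : ℕ := ∑ x ∈ J, ∑ y ∈ P, ad G x y

/-- the number of edges between `y` and `P` -/
def dd (G : Finset (Sym2 V)) (P : Finset V) (y : V) : ℕ := ∑ x ∈ P, ad G x y

theorem dd_eq_card (G : Finset (Sym2 V)) (P : Finset V) (y : V) :
    dd G P y = (P.filter fun x => s(x, y) ∈ G).card := by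
  unfold dd ad
  rw [card_filter]

theorem tt_erase {G : Finset (Sym2 V)} {J P : Finset V} {y : V} (hy : y ∈ P) :
    TT G J P = TT G J (P.erase y) + dd G J y := by
  unfold TT dd
  rw [← sum_add_distrib]
  refine sum_congr rfl fun x _ => ?_
  rw [add_comm, add_sum_erase P (fun w => ad G x w) hy]

theorem ss_erase {G : Finset (Sym2 V)} (hG : ∀ e ∈ G, ¬ e.IsDiag) {P : Finset V} {y : V} (hy : y ∈ P) :
    SS G P = SS G (P.erase y) + 2 * dd G (P.erase y) y := by
  have h1 : SS G P = ∑ x ∈ P, (∑ w ∈ P.erase y, ad G x w + ad G x y) := by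
    unfold SS
    refine sum_congr rfl fun x _ => ?_
    rw [add_comm, add_sum_erase P (fun w => ad G x w) hy]
  rw [h1, ← add_sum_erase P _ hy, ad_self hG, sum_add_distrib]
  have h2 : ∑ w ∈ P.erase y, ad G y w = dd G (P.erase y) y := by
    unfold dd
    exact sum_congr rfl fun w _ => ad_symm G y w
  rw [h2]
  have h3 : ∑ x ∈ P.erase y, ∑ w ∈ P.erase y, ad G x w = SS G (P.erase y) := rfl
  have h4 : ∑ x ∈ P.erase y, ad G x y = dd G (P.erase y) y := rfl
  rw [h3, h4]
  ring

/-- the vertices outside `P` and `Z` which are not adjacent to `Z` -/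
def JJ (G : Finset (Sym2 V)) (P Z : Finset V) : Finset V :=
  univ.filter fun x => x ∉ P ∧ x ∉ Z ∧ ∀ z ∈ Z, s(x, z) ∉ G

/-- the vertices of `P` adjacent to `Z` -/
def AA (G : Finset (Sym2 V)) (P Z : Finset V) : Finset V :=
  P.filter fun y => ∃ z ∈ Z, s(y, z) ∈ G

theorem mem_jj {G : Finset (Sym2 V)} {P Z : Finset V} {x : V} :
    x ∈ JJ G P Z ↔ x ∉ P ∧ x ∉ Z ∧ ∀ z ∈ Z, s(x, z) ∉ G := by
  unfold JJ
  rw [mem_filter]
  exact ⟨fun h => h.2, fun h => ⟨mem_univ _, h⟩⟩

theorem mem_aa {G : Finset (Sym2 V)} {P Z : Finset V} {y : V} :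
    y ∈ AA G P Z ↔ y ∈ P ∧ ∃ z ∈ Z, s(y, z) ∈ G := by
  unfold AA
  rw [mem_filter]

theorem not_disc_insert {G : Finset (Sym2 V)} {Z : Finset V} {y : V} (hZ : Z.Nonempty) (hn : ¬ Disc Z G)
    (hy : ∃ z ∈ Z, s(y, z) ∈ G) : ¬ Disc (insert y Z) G := by
  intro hd
  obtain ⟨C, D, hD, hCD, hW, hZC, h⟩ := disc_part hZ hn (subset_insert y Z) hd
  obtain ⟨d, hdd⟩ := hD
  have h1 : d ∈ insert y Z := by
    rw [← hW]
    exact mem_union_right _ hdd
  rcases mem_insert.1 h1 with h2 | h2
  · subst h2
    obtain ⟨z, hz, hzy⟩ := hy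
    rw [Sym2.eq_swap] at hzy
    exact h z (hZC hz) d hdd hzy
  · exact disjoint_left.1 hCD (hZC h2) hdd

/-- (D0) -/
theorem d0 {G : Finset (Sym2 V)} {P Z : Finset V} (hPZ : Disjoint P Z) (hZ : Z.Nonempty)
    (hn : ¬ Disc Z G) (hJ : JJ G P Z = ∅) : AC (KK G P Z) := by
  refine ac_congr (K := Rr G (P ∪ Z) Z) (fun M => ?_)
    (ac_R _ (P ∪ Z) Z le_rfl subset_union_right hZ hn)
  have e1 : (P ∪ Z) \ Z = P := by
    rw [union_sdiff_right]
    exact sdiff_eq_self_of_disjoint hPZ
  constructor
  · rintro ⟨h1, W, h2, h3, h4⟩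
    rw [e1] at h1
    exact ⟨h1, W, h2, h4⟩
  · rintro ⟨h1, W, h2, h3⟩
    refine ⟨by rw [e1]; exact h1, ?_⟩
    obtain ⟨C, D, hD, hCD, hW, hZC, h⟩ := disc_part hZ hn (subset_union_right.trans h2) h3
    have hDP : D ⊆ P := by
      intro d hd
      by_contra hdP
      have h5 : d ∈ JJ G P Z := mem_jj.2 ⟨hdP, fun hdZ => disjoint_left.1 hCD (hZC hdZ) hd,
        fun z hz hdz => h z (hZC hz) d hd (by rw [Sym2.eq_swap]; exact hdz)⟩
      rw [hJ] at h5
      exact notMem_empty d h5
    refine ⟨(C ∩ (P ∪ Z)) ∪ D, ?_, ?_, ?_⟩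
    · intro v hv
      have h5 := h2 hv
      rw [← hW, mem_union] at h5
      rcases h5 with h5 | h5
      · refine mem_union_left _ (mem_inter.2 ⟨h5, ?_⟩)
        rcases mem_union.1 hv with h6 | h6
        · exact mem_union_left _ (h1 h6)
        · exact mem_union_right _ h6
      · exact mem_union_right _ h5
    · exact union_subset inter_subset_right (hDP.trans subset_union_left)
    · obtain ⟨z, hz⟩ := hZ
      exact ⟨C ∩ (P ∪ Z), D, ⟨z, mem_inter.2 ⟨hZC hz, mem_union_right _ hz⟩⟩, hD,
        disjoint_of_subset_left inter_subset_left hCD, rfl,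
        fun x hx y hy => h x (mem_inter.1 hx).1 y hy⟩

theorem ac_full {G : Finset (Sym2 V)} {P Z : Finset V} (hP : P.Nonempty)
    (h : ∀ M ⊆ P, ∃ W, M ∪ Z ⊆ W ∧ Disc W G) : AC (KK G P Z) :=
  ac_congr (K := fun s => s ⊆ P) (fun s => ⟨fun h1 => ⟨h1, h s h1⟩, fun h1 => h1.1⟩) (ac_simplex hP)

theorem kk_del {G : Finset (Sym2 V)} {P Z : Finset V} {y : V} (M : Finset V) :
    KK G (P.erase y) Z M ↔ KK G P Z M ∧ y ∉ M := by
  unfold KK
  rw [subset_erase]
  tauto

theorem kk_link {G : Finset (Sym2 V)} {P Z : Finset V} {y : V} (hy : y ∈ P) (M : Finset V) :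
    KK G (P.erase y) (insert y Z) M ↔ KK G P Z (insert y M) ∧ y ∉ M := by
  unfold KK
  rw [subset_erase, insert_subset_iff, union_insert, insert_union]
  tauto

/-- (D1) -/
theorem d1 {G : Finset (Sym2 V)} (hG : ∀ e ∈ G, ¬ e.IsDiag) (n : ℕ) : ∀ (k : ℕ) (P Z : Finset V), P.card = n →
    Disjoint P Z → Z.Nonempty → ¬ Disc Z G → P.Nonempty → (JJ G P Z).Nonempty →
    2 * k + SS G P + 2 * (AA G P Z).card + 2 * TT G (JJ G P Z) P + 4 ≤ 4 * P.card + 2 * (JJ G P Z).card →
    ACk k (KK G P Z) := by
  induction n with
  | zero =>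
    intro k P Z hc _ _ _ hP
    exact absurd (card_eq_zero.1 hc) hP.ne_empty
  | succ n ih =>
    intro k P Z hc hPZ hZ hn hP hJ hk
    by_cases hx : ∃ x ∈ JJ G P Z, ∀ y ∈ P, s(x, y) ∉ G
    · obtain ⟨x, hxJ, hx⟩ := hx
      rw [mem_jj] at hxJ
      refine ack_of_ac k (ac_full hP fun M hM => ⟨(M ∪ Z) ∪ {x}, subset_union_left, M ∪ Z, {x}, ?_,
        singleton_nonempty x, ?_, rfl, ?_⟩)
      · exact hZ.mono subset_union_right
      · rw [disjoint_singleton_right, mem_union, not_or]
        exact ⟨fun h => hxJ.1 (hM h), hxJ.2.1⟩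
      · intro u hu v hv
        rw [mem_singleton] at hv
        subst hv
        rw [Sym2.eq_swap]
        rcases mem_union.1 hu with h | h
        · exact hx u (hM h)
        · exact hxJ.2.2 u h
    push Not at hx
    by_cases hA : (AA G P Z).Nonempty
    · obtain ⟨y, hyA⟩ := hA
      have hyA' := mem_aa.1 hyA
      obtain ⟨hyP, hyZ⟩ := hyA'
      have hynZ : y ∉ Z := fun h => disjoint_left.1 hPZ hyP h
      have hyJ : y ∉ JJ G P Z := fun h => (mem_jj.1 h).1 hyP
      by_cases hd : dd G (P.erase y) y + dd G (JJ G P Z) y = 0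
      · -- cone
        have hd1 : ∀ x ∈ P.erase y, s(x, y) ∉ G := by
          intro x hx' hxy
          have h1 : ad G x y ≤ dd G (P.erase y) y := single_le_sum (f := fun x => ad G x y) (fun _ _ => Nat.zero_le _) hx'
          unfold ad at h1
          rw [if_pos hxy] at h1
          omega
        have hd2 : ∀ x ∈ JJ G P Z, s(x, y) ∉ G := by
          intro x hx' hxy
          have h1 : ad G x y ≤ dd G (JJ G P Z) y := single_le_sum (f := fun x => ad G x y) (fun _ _ => Nat.zero_le _) hx'
          unfold ad at h1
          rw [if_pos hxy] at h1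
          omega
        refine ack_of_ac k (H96H.ac_cone kk_dn y fun M hM => ?_)
        obtain ⟨h1, W, h2, h3⟩ := hM
        refine ⟨insert_subset hyP h1, insert y W, ?_, ?_⟩
        · rw [insert_union]
          exact insert_subset_insert y h2
        · by_cases hyW : y ∈ W
          · rwa [insert_eq_of_mem hyW]
          · obtain ⟨C, D, hD, hCD, hW, hZC, h⟩ := disc_part hZ hn (subset_union_right.trans h2) h3
            refine ⟨insert y C, D, insert_nonempty y C, hD, ?_, ?_, ?_⟩
            · rw [disjoint_insert_left]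
              exact ⟨fun h4 => hyW (hW ▸ mem_union_right _ h4), hCD⟩
            · rw [insert_union, hW]
            · intro u hu v hv
              rcases mem_insert.1 hu with h4 | h4
              · subst h4
                rw [Sym2.eq_swap]
                by_cases hvP : v ∈ P
                · exact hd1 v (mem_erase.2 ⟨fun h5 => hyW (hW ▸ mem_union_right _ (h5 ▸ hv)), hvP⟩)
                · refine hd2 v (mem_jj.2 ⟨hvP, fun h5 => disjoint_left.1 hCD (hZC h5) hv, fun z hz hvz => ?_⟩)
                  rw [Sym2.eq_swap] at hvz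
                  exact h z (hZC hz) v hv hvz
              · exact h u h4 v hv
      · have hS := ss_erase hG hyP
        have hT := tt_erase (G := G) (J := JJ G P Z) hyP
        have hcP : (P.erase y).card = n := by
          rw [card_erase_of_mem hyP, hc]
          rfl
        have hc1 : P.card = (P.erase y).card + 1 := by omega
        have hJ1 : JJ G (P.erase y) Z = JJ G P Z := by
          ext x
          rw [mem_jj, mem_jj]
          constructor
          · rintro ⟨h1, h2, h3⟩
            refine ⟨fun h4 => h1 (mem_erase.2 ⟨?_, h4⟩), h2, h3⟩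
            rintro rfl
            obtain ⟨z, hz, hyz⟩ := hyZ
            exact h3 z hz hyz
          · rintro ⟨h1, h2, h3⟩
            exact ⟨fun h4 => h1 (mem_of_mem_erase h4), h2, h3⟩
        have hA1 : AA G (P.erase y) Z = (AA G P Z).erase y := by
          ext x
          rw [mem_erase, mem_aa, mem_aa, mem_erase]
          tauto
        have hA2 : (AA G P Z).card = (AA G (P.erase y) Z).card + 1 := by
          rw [hA1]
          exact (card_erase_add_one hyA).symm
        have hJc : (JJ G P Z).card ≤ TT G (JJ G P Z) P := by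
          unfold TT
          rw [card_eq_sum_ones]
          refine sum_le_sum fun x hx' => ?_
          obtain ⟨w, hw, hxw⟩ := hx x hx'
          have h1 : ad G x w ≤ ∑ w ∈ P, ad G x w := single_le_sum (f := fun w => ad G x w) (fun _ _ => Nat.zero_le _) hw
          unfold ad at h1 ⊢
          rw [if_pos hxw] at h1
          exact h1
        have hPn : (P.erase y).Nonempty := by
          rw [nonempty_iff_ne_empty]
          intro h1
          have h2 : (P.erase y).card = 0 := by rw [h1]; rfl
          omega
        refine ack_vertex kk_dn y ?_ ?_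
        · refine ack_congr (fun M => kk_del M) (ih k (P.erase y) Z hcP
            (disjoint_of_subset_left (erase_subset _ _) hPZ) hZ hn hPn (hJ1.symm ▸ hJ) ?_)
          rw [hJ1]
          omega
        · intro hk1
          refine ack_congr (fun M => kk_link hyP M) ?_
          have hZ' : ¬ Disc (insert y Z) G := not_disc_insert hZ hn hyZ
          have hPZ' : Disjoint (P.erase y) (insert y Z) := by
            rw [disjoint_insert_right]
            exact ⟨notMem_erase y P, disjoint_of_subset_left (erase_subset _ _) hPZ⟩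
          rcases (JJ G (P.erase y) (insert y Z)).eq_empty_or_nonempty with hJ2 | hJ2
          · exact ack_of_ac _ (d0 hPZ' (insert_nonempty y Z) hZ' hJ2)
          · refine ih (k - 1) (P.erase y) (insert y Z) hcP hPZ' (insert_nonempty y Z) hZ' hPn hJ2 ?_
            have e1 : JJ G (P.erase y) (insert y Z) = (JJ G P Z).filter fun x => s(x, y) ∉ G := by
              ext x
              rw [mem_filter, mem_jj, mem_jj]
              constructor
              · rintro ⟨h1, h2, h3⟩
                rw [mem_insert, not_or] at h2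
                exact ⟨⟨fun h4 => h1 (mem_erase.2 ⟨h2.1, h4⟩), h2.2, fun z hz => h3 z (mem_insert_of_mem hz)⟩,
                  h3 y (mem_insert_self _ _)⟩
              · rintro ⟨⟨h1, h2, h3⟩, h4⟩
                refine ⟨fun h5 => h1 (mem_of_mem_erase h5), ?_, ?_⟩
                · rw [mem_insert, not_or]
                  exact ⟨fun h5 => h1 (h5 ▸ hyP), h2⟩
                · intro z hz
                  rcases mem_insert.1 hz with h5 | h5
                  · rw [h5]
                    exact h4
                  · exact h3 z h5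
            have e2 : (JJ G P Z).card = (JJ G (P.erase y) (insert y Z)).card + dd G (JJ G P Z) y := by
              rw [e1, dd_eq_card, add_comm]
              exact (card_filter_add_card_filter_not (s := JJ G P Z) fun x => s(x, y) ∈ G).symm
            have e3 : (AA G (P.erase y) (insert y Z)).card + 1 ≤ (AA G P Z).card + dd G (P.erase y) y := by
              have h1 : AA G (P.erase y) (insert y Z) ⊆
                  AA G (P.erase y) Z ∪ (P.erase y).filter fun x => s(x, y) ∈ G := by
                intro x hx'
                rw [mem_aa] at hx'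
                obtain ⟨h2, z, hz, h3⟩ := hx'
                rw [mem_union, mem_aa, mem_filter]
                rcases mem_insert.1 hz with h4 | h4
                · exact Or.inr ⟨h2, h4 ▸ h3⟩
                · exact Or.inl ⟨h2, z, h4, h3⟩
              have h2 := (card_le_card h1).trans (card_union_le _ _)
              rw [dd_eq_card]
              omega
            have e4 : TT G (JJ G (P.erase y) (insert y Z)) (P.erase y) + dd G (JJ G P Z) y ≤ TT G (JJ G P Z) P := by
              rw [hT]
              refine Nat.add_le_add_right ?_ _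
              unfold TT
              rw [e1]
              exact sum_le_sum_of_subset (filter_subset _ _)
            omega
    · rw [not_nonempty_iff_eq_empty] at hA
      obtain ⟨x, hxJ⟩ := hJ
      rw [mem_jj] at hxJ
      refine ack_of_ac k (ac_full hP fun M hM => ⟨Z ∪ (M ∪ {x}), ?_, Z, M ∪ {x}, hZ, ?_, ?_, rfl, ?_⟩)
      · intro v hv
        rw [mem_union] at hv
        rw [mem_union, mem_union]
        tauto
      · exact ⟨x, mem_union_right _ (mem_singleton_self x)⟩
      · rw [disjoint_union_right]
        refine ⟨(disjoint_of_subset_left hM hPZ).symm, ?_⟩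
        rw [disjoint_singleton_right]
        exact hxJ.2.1
      · intro u hu v hv
        rcases mem_union.1 hv with h | h
        · intro huv
          have h1 : v ∈ AA G P Z := mem_aa.2 ⟨hM h, u, hu, by rw [Sym2.eq_swap]; exact huv⟩
          rw [hA] at h1
          exact notMem_empty v h1
        · rw [mem_singleton] at h
          subst h
          rw [Sym2.eq_swap]
          exact hxJ.2.2 u hu

/-- (D2) -/
theorem d2 {G : Finset (Sym2 V)} (hG : ∀ e ∈ G, ¬ e.IsDiag) (n : ℕ) : ∀ (k : ℕ) (P : Finset V), P.card = n →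
    P.Nonempty → (univ \ P).Nonempty →
    2 * k + SS G P + 2 * TT G (univ \ P) P + 6 ≤ 4 * P.card + 2 * (univ \ P).card →
    ACk k (KK G P ∅) := by
  induction n with
  | zero =>
    intro k P hc hP
    exact absurd (card_eq_zero.1 hc) hP.ne_empty
  | succ n ih =>
    intro k P hc hP hX hk
    by_cases hx : ∃ x ∈ univ \ P, ∀ y ∈ P, s(x, y) ∉ G
    · obtain ⟨x, hxX, hx⟩ := hx
      have hxP : x ∉ P := (mem_sdiff.1 hxX).2
      have h1 : Disc (P ∪ {x}) G := by
        refine ⟨P, {x}, hP, singleton_nonempty x, disjoint_singleton_right.2 hxP, rfl, ?_⟩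
        intro u hu v hv
        rw [mem_singleton] at hv
        subst hv
        rw [Sym2.eq_swap]
        exact hx u hu
      exact ack_of_ac k (ac_full hP fun M hM => ⟨P ∪ {x}, by
        rw [union_empty]
        exact hM.trans subset_union_left, h1⟩)
    push Not at hx
    obtain ⟨x0, hx0⟩ := hX
    obtain ⟨z, hzP, hxz⟩ := hx x0 hx0
    have hS := ss_erase hG hzP
    have hcP : (P.erase z).card = n := by
      rw [card_erase_of_mem hzP, hc]
      rfl
    have hc1 : P.card = (P.erase z).card + 1 := by omega
    have hzX : z ∉ univ \ P := fun h => (mem_sdiff.1 h).2 hzP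
    have hX1 : univ \ P.erase z = insert z (univ \ P) := by
      ext x
      by_cases hxz' : x = z
      · subst hxz'
        simp
      · simp [hxz']
    have hXc : (univ \ P.erase z).card = (univ \ P).card + 1 := by
      rw [hX1, card_insert_of_notMem hzX]
    have hT := tt_erase (G := G) (J := univ \ P) hzP
    have hT1 : TT G (univ \ P.erase z) (P.erase z) = TT G (univ \ P) (P.erase z) + dd G (P.erase z) z := by
      rw [hX1]
      unfold TT
      rw [sum_insert hzX, add_comm]
      congr 1
      unfold dd
      exact sum_congr rfl fun w _ => ad_symm G z w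
    have hd : 1 ≤ dd G (univ \ P) z := by
      have h1 : ad G x0 z ≤ dd G (univ \ P) z := single_le_sum (f := fun x => ad G x z) (fun _ _ => Nat.zero_le _) hx0
      unfold ad at h1
      rwa [if_pos hxz] at h1
    have hJc : (univ \ P).card ≤ TT G (univ \ P) P := by
      unfold TT
      rw [card_eq_sum_ones]
      refine sum_le_sum fun x hx' => ?_
      obtain ⟨w, hw, hxw⟩ := hx x hx'
      have h1 : ad G x w ≤ ∑ w ∈ P, ad G x w := single_le_sum (f := fun w => ad G x w) (fun _ _ => Nat.zero_le _) hw
      unfold ad at h1 ⊢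
      rw [if_pos hxw] at h1
      exact h1
    have hPn : (P.erase z).Nonempty := by
      rw [nonempty_iff_ne_empty]
      intro h1
      have h2 : (P.erase z).card = 0 := by rw [h1]; rfl
      omega
    refine ack_vertex kk_dn z ?_ ?_
    · refine ack_congr (fun M => kk_del M) (ih k (P.erase z) hcP hPn ?_ ?_)
      · rw [hX1]
        exact insert_nonempty _ _
      · omega
    · intro hk1
      refine ack_congr (fun M => kk_link hzP M) ?_
      have hz' : ¬ Disc (insert z ∅) G := by
        rw [insert_empty_eq]
        exact not_disc_singleton z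
      have hPZ' : Disjoint (P.erase z) (insert z ∅) := by
        rw [insert_empty_eq, disjoint_singleton_right]
        exact notMem_erase z P
      rcases (JJ G (P.erase z) (insert z ∅)).eq_empty_or_nonempty with hJ2 | hJ2
      · exact ack_of_ac _ (d0 hPZ' (insert_nonempty z ∅) hz' hJ2)
      · refine d1 hG n (k - 1) (P.erase z) (insert z ∅) hcP hPZ' (insert_nonempty z ∅) hz' hPn hJ2 ?_
        have e1 : JJ G (P.erase z) (insert z ∅) = (univ \ P).filter fun x => s(x, z) ∉ G := by
          ext x
          rw [mem_filter, mem_jj, mem_sdiff, insert_empty_eq, mem_singleton, mem_erase]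
          constructor
          · rintro ⟨h1, h2, h3⟩
            exact ⟨⟨mem_univ _, fun h4 => h1 ⟨h2, h4⟩⟩, h3 z (mem_singleton_self z)⟩
          · rintro ⟨⟨-, h1⟩, h2⟩
            refine ⟨fun h3 => h1 h3.2, fun h3 => h1 (h3 ▸ hzP), fun w hw => ?_⟩
            rw [mem_singleton.1 hw]
            exact h2
        have e2 : (univ \ P).card = (JJ G (P.erase z) (insert z ∅)).card + dd G (univ \ P) z := by
          rw [e1, dd_eq_card, add_comm]
          exact (card_filter_add_card_filter_not (s := univ \ P) fun x => s(x, z) ∈ G).symm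
        have e3 : (AA G (P.erase z) (insert z ∅)).card = dd G (P.erase z) z := by
          rw [dd_eq_card]
          congr 1
          ext x
          rw [mem_aa, mem_filter, insert_empty_eq]
          simp
        have e4 : TT G (JJ G (P.erase z) (insert z ∅)) (P.erase z) + dd G (univ \ P) z ≤ TT G (univ \ P) P := by
          rw [hT]
          refine Nat.add_le_add_right ?_ _
          unfold TT
          rw [e1]
          exact sum_le_sum_of_subset (filter_subset _ _)
        omega

theorem ss_univ {G : Finset (Sym2 V)} (hG : ∀ e ∈ G, ¬ e.IsDiag) : SS G univ = 2 * G.card := by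
  have h1 : ∀ x : V, ∑ y, ad G x y = (G.filter fun e => x ∈ e).card := by
    intro x
    have h2 : (G.filter fun e => x ∈ e) = (univ.filter fun w => s(x, w) ∈ G).image fun w => s(x, w) := by
      ext e
      rw [mem_filter, mem_image]
      constructor
      · rintro ⟨h3, h4⟩
        obtain ⟨w, rfl⟩ := Sym2.mem_iff_exists.1 h4
        exact ⟨w, mem_filter.2 ⟨mem_univ _, h3⟩, rfl⟩
      · rintro ⟨w, h3, rfl⟩
        exact ⟨(mem_filter.1 h3).2, Sym2.mem_mk_left _ _⟩
    rw [h2, card_image_of_injective _ fun a b hab => Sym2.congr_right.1 hab, card_filter]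
    rfl
  unfold SS
  rw [sum_congr rfl fun x _ => h1 x]
  simp_rw [card_filter]
  rw [sum_comm]
  have h3 : ∀ e ∈ G, (∑ x : V, if x ∈ e then 1 else 0) = 2 := by
    intro e he
    induction e with
    | _ a b =>
      have hab : a ≠ b := fun h => hG _ he (by simpa using h)
      rw [← card_filter]
      have h4 : (univ.filter fun x : V => x ∈ s(a, b)) = {a, b} := by
        ext x
        rw [mem_filter, Sym2.mem_iff, mem_insert, mem_singleton]
        exact ⟨fun h => h.2, fun h => ⟨mem_univ _, h⟩⟩
      rw [h4, card_pair hab]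
  rw [sum_congr rfl h3, sum_const, smul_eq_mul, mul_comm]

/-- LEMMA D: the sets contained in a disconnected set of `G`. -/
theorem ackN {G : Finset (Sym2 V)} (hG : ∀ e ∈ G, ¬ e.IsDiag) {k : ℕ}
    (hk : k + G.card + 4 ≤ 2 * Fintype.card V) : ACk k fun M : Finset V => ∃ W, M ⊆ W ∧ Disc W G := by
  have h0 : ACk k (KK G univ ∅) := by
    have hV : 0 < Fintype.card V := by omega
    obtain ⟨z⟩ := Fintype.card_pos_iff.1 hV
    have hz : z ∈ (univ : Finset V) := mem_univ z
    have hS := ss_erase hG hz
    have hS2 := ss_univ hG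
    have hX1 : univ \ univ.erase z = ({z} : Finset V) := by
      ext x
      rw [mem_sdiff, mem_erase, mem_singleton]
      simp
    have hc1 : (univ.erase z : Finset V).card + 1 = Fintype.card V := by
      rw [card_erase_add_one hz, card_univ]
    have hPn : (univ.erase z : Finset V).Nonempty := by
      rw [nonempty_iff_ne_empty]
      intro h1
      have h2 : (univ.erase z : Finset V).card = 0 := by rw [h1]; rfl
      omega
    refine ack_vertex kk_dn z ?_ ?_
    · refine ack_congr (fun M => kk_del M) (d2 hG _ k (univ.erase z) rfl hPn ?_ ?_)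
      · rw [hX1]
        exact singleton_nonempty z
      · rw [hX1, card_singleton]
        have h3 : TT G {z} (univ.erase z) = dd G (univ.erase z) z := by
          unfold TT dd
          rw [sum_singleton]
          exact sum_congr rfl fun w _ => ad_symm G z w
        omega
    · intro _
      refine ack_congr (fun M => kk_link hz M) ?_
      refine ack_of_ac _ (d0 ?_ (insert_nonempty z ∅) ?_ ?_)
      · rw [insert_empty_eq, disjoint_singleton_right]
        exact notMem_erase z univ
      · rw [insert_empty_eq]
        exact not_disc_singleton z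
      · rw [eq_empty_iff_forall_notMem]
        intro x hx
        rw [mem_jj, insert_empty_eq, mem_singleton, mem_erase] at hx
        exact hx.1 ⟨hx.2.1, mem_univ _⟩
  refine ack_congr (fun M => ?_) h0
  unfold KK
  rw [union_empty]
  exact ⟨fun h => h.2, fun h => ⟨subset_univ _, h⟩⟩

end H98TF
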