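import Pool.Agent.Lib.H85TF.Abs

/-!
# H98TF, file Gen: the functor step for an arbitrary covering predicate with the exchange property
-/

set_option autoImplicit false

namespace H98TF

open Finset H98P H98Z H98M H63F H30F

variable {V : Type*} [Fintype V] [DecidableEq V]

/-- `G` is connected and `G - v` is connected for every vertex `v`. -/
def TC (G : Finset (Sym2 V)) : Prop := ¬ Disc univ G ∧ ∀ z, ¬ Disc (univ.erase z) G

theorem tc_mono {G G' : Finset (Sym2 V)} (h : G ⊆ G') (hG : TC G) : TC G' :=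
  ⟨fun h1 => hG.1 (H85TF.disc_anti h h1), fun z h1 => hG.2 z (H85TF.disc_anti h h1)⟩

/-- THE FUNCTOR STEP for a covering predicate `Pi`. -/
theorem generic {cross : Sym2 V → Sym2 V → Prop} (hsymm : ∀ e f, cross e f → cross f e)
    (hHD : ∀ W, HD cross W) (h2 : 2 ≤ Fintype.card V) (Pi : Finset (Sym2 V) → Finset V → Prop)
    (mono : ∀ G G' : Finset (Sym2 V), G ⊆ G' → G' ⊆ LW univ → TC G → ∀ A, Pi G A → Pi G' A)
    (dn : ∀ G : Finset (Sym2 V), G ⊆ LW univ → TC G → ∀ A B : Finset V, A ⊆ B → Pi G B → Pi G A)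
    (h1 : ∀ G : Finset (Sym2 V), G ⊆ LW univ → TC G → ∀ v, Pi G {v})
    (E : ∀ G : Finset (Sym2 V), G ⊆ LW univ → TC G → ∀ (A : Finset V) (b d : V) (U : Finset V),
      Pi G (insert b A) → Pi G (insert d A) → b ∈ U → d ∈ U → ¬ Disc U G →
      (∀ u ∈ U, u ≠ b → u ≠ d → ¬ Pi G (insert u A)) → Pi G (insert b (insert d A))) :
    ∃ G : Finset (Sym2 V), G ⊆ LW univ ∧ Plane cross G ∧ TC G ∧ Pi G univ := by
  have hV : ∃ x y : V, x ≠ y := by
    obtain ⟨x, y, h⟩ := Fintype.exists_pair_of_one_lt_card (α := V) (by omega)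
    exact ⟨x, y, h⟩
  obtain ⟨G, -, hGL, hGp, hac⟩ := functor hsymm hHD hV
    (fun G W => (TC G → ¬ Pi G W) ∧ Disc W G)
    (fun G G' hGG hG' _ _ W hW => ⟨fun hT hP =>
      hW.1 (tc_mono hGG hT) (mono G G' hGG hG' hT W hP), H85TF.disc_anti hGG hW.2⟩)
    (fun G W _ _ _ h => h.2)
  by_cases hT : TC G
  · refine ⟨G, hGL, hGp, hT, ?_⟩
    by_contra hcov
    refine hac ?_
    have h3 := H96TF.ac_X G (Pi G) (dn G hGL hT)
      (dn G hGL hT ∅ {Classical.choose hV} (empty_subset _) (h1 G hGL hT _))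
      (h1 G hGL hT) (E G hGL hT) hcov
    have h4 : (fun W : Finset V => ¬ Pi G W ∧ Disc W G) = fun W => (TC G → ¬ Pi G W) ∧ Disc W G := by
      funext W
      exact propext ⟨fun h => ⟨fun _ => h.1, h.2⟩, fun h => ⟨h.1 hT, h.2⟩⟩
    rw [h4] at h3
    exact h3
  · refine absurd ?_ hac
    have h3 : (fun W : Finset V => (TC G → ¬ Pi G W) ∧ Disc W G) = fun W => Disc W G := by
      funext W
      exact propext ⟨fun h => h.2, fun h => ⟨fun h5 => absurd h5 hT, h⟩⟩
    rw [h3]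
    refine H30D.ac_disc G ?_
    by_contra hcon
    rw [not_or, not_exists] at hcon
    exact hT hcon

end H98TF
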