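import Pool.Agent.Lib.H98TF.Ham
import Pool.Agent.Lib.H98TF.Gen
import Pool.Agent.Lib.H85TF.DrawX

/-!
# H98TF, file DrawD: 3-connected or Hamiltonian, in the language of simple drawings
-/

set_option autoImplicit false

open H53P SimpleDraw

namespace H98TF

open Finset H98P H98Z H98M H63F H30F H63L H97W H85TF

section

variable {V : Type*} [Fintype V] [DecidableEq V]

/-- No two vertices separate `G`. -/
def NoCut2 (G : Finset (Sym2 V)) : Prop := ∀ x y, x ≠ y → ¬ Disc ((univ.erase x).erase y) G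

/-- `G` contains a Hamiltonian cycle: a connected spanning subgraph with all degrees two. -/
def Ham (G : Finset (Sym2 V)) : Prop := ∃ F ⊆ G, ¬ Disc univ F ∧ ∀ v, dg F v = 2

theorem noCut2_mono {G G' : Finset (Sym2 V)} (h : G ⊆ G') (hG : NoCut2 G) : NoCut2 G' :=
  fun x y hxy h1 => hG x y hxy (H85TF.disc_anti h h1)

theorem ham_mono {G G' : Finset (Sym2 V)} (h : G ⊆ G') (hG : Ham G) : Ham G' := by
  obtain ⟨F, h1, h2⟩ := hG
  exact ⟨F, h1.trans h, h2⟩

end

theorem conn3 {n : ℕ} (hn : 3 ≤ n) {G : Finset (Sym2 (Fin n))} (hT : TC G) (h : NoCut2 G)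
    (u v : Fin n) : ((gr G).induce {w | w ≠ u ∧ w ≠ v}).Connected := by
  have key : ∀ {U : Finset (Fin n)}, U.Nonempty → ¬ Disc U G → (∀ w, w ∈ U ↔ w ≠ u ∧ w ≠ v) →
      ((gr G).induce {w | w ≠ u ∧ w ≠ v}).Connected := by
    intro U h1 h2 h3
    have h4 := induce_connected h1 h2
    have h5 : {w : Fin n | w ∈ U} = {w | w ≠ u ∧ w ≠ v} := by
      ext w
      exact h3 w
    rw [h5] at h4
    exact h4
  by_cases huv : u = v
  · subst huv
    refine key (U := univ.erase u) ?_ (hT.2 u) (fun w => by simp)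
    rw [← card_pos, card_erase_of_mem (mem_univ _), card_univ, Fintype.card_fin]
    omega
  · refine key (U := (univ.erase u).erase v) ?_ (h u v huv) (fun w => by simp [and_comm])
    rw [← card_pos, card_erase_of_mem (mem_erase.2 ⟨Ne.symm huv, mem_univ _⟩),
      card_erase_of_mem (mem_univ _), card_univ, Fintype.card_fin]
    omega

theorem conn_gr {n : ℕ} (hn : 3 ≤ n) {F : Finset (Sym2 (Fin n))} (hc : ¬ Disc univ F) :
    (gr F).Connected := by
  have h6 := induce_connected ⟨⟨0, by omega⟩, mem_univ _⟩ hc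
  have h7 : {v : Fin n | v ∈ (univ : Finset (Fin n))} = Set.univ := by
    ext v
    simp
  rw [h7] at h6
  exact (SimpleGraph.induceUnivIso (gr F)).connected_iff.1 h6

theorem ham_gr {n : ℕ} (hn : 3 ≤ n) {F : Finset (Sym2 (Fin n))} (hF : ∀ e ∈ F, ¬ e.IsDiag)
    (hc : ¬ Disc univ F) (h2 : ∀ v, dg F v = 2) (v : Fin n) :
    ∃ c : (gr F).Walk v v, c.IsHamiltonianCycle :=
  ham_of_conn (conn_gr hn hc) (fun v => (degree_gr hF v).trans (h2 v)) v

/-- As `toDrawingExact`, with the large graph `G` kept. -/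
theorem layer2 {n : ℕ} (hn : 3 ≤ n) (D : SimpleDrawing n) {G F : Finset (Sym2 (Fin n))}
    (hGL : G ⊆ LW univ) (hGP : Plane (crossT (H53P.table D)) G) (hT : TC G) (hF : F ⊆ G)
    (hdeg : ∀ v, dg F v ≤ 2) (hm : 2 * Fintype.card (Fin n) ≤ G.card + 3) :
    ∃ H : SimpleGraph (Fin n), D.Plane (gr G) ∧ H ≤ gr G ∧ H.Connected ∧
      (∀ v, (H.induce {w | w ≠ v}).Connected) ∧ H.edgeSet.ncard = 2 * n - 3 ∧ gr F ≤ H := by
  have hdiag := not_diag_of_LW hGL
  obtain ⟨H, h1, h2, h3, h4, h5⟩ := H63T.trim_exact G F hdiag hF hdeg hT.1 hT.2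
    (by rw [Fintype.card_fin]; omega) hm
  rw [Fintype.card_fin] at h5
  refine ⟨gr H, plane_of D hGP, gr_mono h2, conn_gr hn h3, fun v => ?_, ?_, gr_mono h1⟩
  · have h6 : (univ.erase v).Nonempty := by
      rw [← card_pos, card_erase_of_mem (mem_univ _), card_univ, Fintype.card_fin]
      omega
    have h7 := induce_connected h6 (h4 v)
    have h8 : {w : Fin n | w ∈ univ.erase v} = {w | w ≠ v} := by
      ext w
      simp
    rw [h8] at h7
    exact h7
  · rw [H85TF.gr_edgeSet fun e he => hdiag e (h2 he), Set.ncard_coe_finset, h5]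

/-- FORM D0 for simple drawings, from the abstract form. -/
theorem draw_D0 {n : ℕ} (hn : 3 ≤ n) (D : SimpleDrawing n) {G : Finset (Sym2 (Fin n))}
    (hGL : G ⊆ LW univ) (hGP : Plane (crossT (H53P.table D)) G) (hT : TC G)
    (hm : 2 * Fintype.card (Fin n) ≤ G.card + 3) (h : NoCut2 G ∨ Ham G) :
    ∃ G H : SimpleGraph (Fin n), D.Plane G ∧ H ≤ G ∧ H.Connected ∧
      (∀ v, (H.induce {w | w ≠ v}).Connected) ∧ H.edgeSet.ncard = 2 * n - 3 ∧
      ((∀ v, ∃ c : H.Walk v v, c.IsHamiltonianCycle) ∨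
        ∀ u v, (G.induce {w | w ≠ u ∧ w ≠ v}).Connected) := by
  by_cases hH : Ham G
  · obtain ⟨F, hF, hc, h2⟩ := hH
    obtain ⟨H, g1, g2, g3, g4, g5, g6⟩ := layer2 hn D hGL hGP hT hF (fun v => (h2 v).le) hm
    refine ⟨gr G, H, g1, g2, g3, g4, g5, Or.inl fun v => ?_⟩
    obtain ⟨c, hc'⟩ := ham_gr hn (fun e he => not_diag_of_LW hGL e (hF he)) hc h2 v
    exact ⟨c.map (SimpleGraph.Hom.ofLE g6), hc'.map Function.bijective_id⟩
  · obtain ⟨H, g1, g2, g3, g4, g5, -⟩ := layer2 hn D hGL hGP hT (empty_subset G)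
      (fun v => by simp [dg]) hm
    exact ⟨gr G, H, g1, g2, g3, g4, g5, Or.inr (conn3 hn hT (h.resolve_right hH))⟩

/-- FORM D for simple drawings, from the abstract form. -/
theorem draw_D {n : ℕ} (hn : 3 ≤ n) (D : SimpleDrawing n) {G F : Finset (Sym2 (Fin n))}
    (hGL : G ⊆ LW univ) (hGP : Plane (crossT (H53P.table D)) G) (hT : TC G)
    (hm : 2 * Fintype.card (Fin n) ≤ G.card + 3) (hF : F ⊆ G) (h2 : ∀ v, dg F v = 2)
    (h : NoCut2 G ∨ Ham G) :
    ∃ G H F' : SimpleGraph (Fin n), D.Plane G ∧ F' ≤ H ∧ H ≤ G ∧ H.Connected ∧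
      (∀ v, (H.induce {w | w ≠ v}).Connected) ∧ H.edgeSet.ncard = 2 * n - 3 ∧
      (∀ v, (F'.neighborSet v).ncard = 2) ∧
      ((∀ v, ∃ c : F'.Walk v v, c.IsHamiltonianCycle) ∨
        (∀ u v, (G.induce {w | w ≠ u ∧ w ≠ v}).Connected) ∧ F' = gr F) := by
  have hd := not_diag_of_LW hGL
  by_cases hH : Ham G
  · obtain ⟨F1, hF1, hc, h21⟩ := hH
    obtain ⟨H, g1, g2, g3, g4, g5, g6⟩ := layer2 hn D hGL hGP hT hF1 (fun v => (h21 v).le) hm
    exact ⟨gr G, H, gr F1, g1, g6, g2, g3, g4, g5,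
      fun v => (degree_gr (fun e he => hd e (hF1 he)) v).trans (h21 v),
      Or.inl fun v => ham_gr hn (fun e he => hd e (hF1 he)) hc h21 v⟩
  · obtain ⟨H, g1, g2, g3, g4, g5, g6⟩ := layer2 hn D hGL hGP hT hF (fun v => (h2 v).le) hm
    exact ⟨gr G, H, gr F, g1, g6, g2, g3, g4, g5,
      fun v => (degree_gr (fun e he => hd e (hF he)) v).trans (h2 v),
      Or.inr ⟨conn3 hn hT (h.resolve_right hH), rfl⟩⟩

end H98TF
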