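import Pool.Agent.Lib.H98TF.Exact
import Pool.Agent.Lib.H98TF.DrawD
import Pool.Agent.Lib.LD.Def
import Pool.Agent.Lib.H30D.S

/-!
# H98TF, file FunD: the functor step for 'a 2-factor, and 3-connected or Hamiltonian'
-/

set_option autoImplicit false
set_option linter.unusedSectionVars false

namespace H98TF

open Finset H98P H98Z H98M H63F H30F H85TF LD

variable {V : Type*} [Fintype V] [DecidableEq V]

theorem tcy_of_tc (h3 : 3 ≤ Fintype.card V) {G : Finset (Sym2 V)} (hG : G ⊆ LW univ) (hT : TC G) :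
    TCY G univ where
  three := by rw [card_univ]; exact h3
  sub := fun _ _ _ _ => mem_univ _
  loop := H85TF.not_diag_of_LW hG
  conn := hT.1
  conn' := fun z _ => hT.2 z

theorem disc_of_x2 {G : Finset (Sym2 V)} {W : Finset V} (h : X2 G univ W) : Disc W G := by
  obtain ⟨x, y, P, Q, hs, hx, hy, ⟨a, ha, haP⟩, ⟨b, hb, hbQ⟩⟩ := h
  refine ⟨W ∩ P, W ∩ Q, ⟨a, mem_inter.2 ⟨ha, haP⟩⟩, ⟨b, mem_inter.2 ⟨hb, hbQ⟩⟩, ?_, ?_, ?_⟩
  · exact hs.dis.mono inter_subset_right inter_subset_right
  · ext v
    rw [mem_union, mem_inter, mem_inter]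
    constructor
    · rintro (h | h)
      · exact h.1
      · exact h.1
    · intro hv
      have h1 : v ∈ insert x (insert y (P ∪ Q)) := by
        rw [hs.eq]
        exact mem_univ v
      rw [mem_insert, mem_insert, mem_union] at h1
      rcases h1 with rfl | rfl | h1 | h1
      · exact absurd hv hx
      · exact absurd hv hy
      · exact Or.inl ⟨hv, h1⟩
      · exact Or.inr ⟨hv, h1⟩
  · intro a ha b hb
    exact hs.noE a (mem_inter.1 ha).2 b (mem_inter.1 hb).2

theorem noCut2_of_noSep {G : Finset (Sym2 V)} (h : ∀ x y P Q, ¬ Sep G univ x y P Q) : NoCut2 G := by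
  rintro x y hxy ⟨C, D, hC, hD, hCD, hun, hno⟩
  have hx : x ∉ C ∪ D := by
    rw [hun]
    simp
  have hy : y ∉ C ∪ D := by
    rw [hun]
    simp
  rw [mem_union, not_or] at hx hy
  refine h x y C D ⟨hxy, hx.1, hx.2, hy.1, hy.2, hC, hD, hCD, ?_, hno⟩
  rw [hun]
  ext v
  simp only [mem_insert, mem_erase, mem_univ, and_true, iff_true]
  by_cases h1 : v = x
  · exact Or.inl h1
  · by_cases h2 : v = y
    · exact Or.inr (Or.inl h2)
    · exact Or.inr (Or.inr ⟨h2, h1⟩)

/-- THE FUNCTOR STEP OF FORM D. -/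
theorem formD {cross : Sym2 V → Sym2 V → Prop} (hsymm : ∀ e f, cross e f → cross f e)
    (hHD : ∀ W, HD cross W) (h3 : 3 ≤ Fintype.card V)
    (L2 : ∀ E : Finset (Sym2 V), E ⊆ LW univ → TCY E univ → ∀ M : Finset V, ¬ Disc M E →
      U E univ M → AC (Ch fun W : Finset V => (U E univ W ∨ X2 E univ W) ∧ W ⊂ M))
    (L1 : ∀ E : Finset (Sym2 V), E ⊆ LW univ → TCY E univ → (∃ x y P Q, Sep E univ x y P Q) →
      ¬ (∀ v, dg E v = 2) → AC (Ch fun W : Finset V => X2 E univ W)) :
    ∃ G : Finset (Sym2 V), G ⊆ LW univ ∧ Plane cross G ∧ TC G ∧ 2 * Fintype.card V ≤ G.card + 3 ∧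
      Cov G univ ∧ (NoCut2 G ∨ Ham G) := by
  have hV : ∃ x y : V, x ≠ y := by
    obtain ⟨x, y, h⟩ := Fintype.exists_pair_of_one_lt_card (α := V) (by omega)
    exact ⟨x, y, h⟩
  obtain ⟨G, hGL, hGp, ⟨hT, hC, hN⟩, hcard⟩ := exactX hsymm hHD hV
    (fun G W => Disc W G ∧ (TC G → U G univ W ∨ X2 G univ W))
    (fun G => TC G ∧ Cov G univ ∧ (NoCut2 G ∨ Ham G))
    (fun G G' hGG _ W hW => ⟨H85TF.disc_anti hGG hW.1, fun hT =>
      (hW.2 (tc_mono hGG hT)).imp (fun h => h.anti hGG) (fun h => h.anti hGG)⟩)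
    (fun G W _ h => h.1)
    (fun G G' hGG _ h => ⟨tc_mono hGG h.1, cov_edges hGG h.2.1,
      h.2.2.imp (noCut2_mono hGG) (ham_mono hGG)⟩)
    (fun G hGL hno => by
      by_cases hT : TC G
      · have hY := tcy_of_tc h3 hGL hT
        by_cases hU : U G univ univ
        · refine ac_congr (fun t => ?_) (H30D.remove_univ
            (P := fun W => U G univ W ∨ X2 G univ W) (G := G) (fun M hM hMc => ?_) (Or.inl hU))
          · constructor
            · exact ch_mono fun W hW => ⟨hW.2, fun _ => hW.1⟩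
            · exact ch_mono fun W hW => ⟨hW.2 hT, hW.1⟩
          · exact L2 G hGL hY M hMc (hM.resolve_right fun h => hMc (disc_of_x2 h))
        · have hU' : ∀ W, ¬ U G univ W := fun W h => hU (h.up (subset_univ W))
          have hcov : Cov G univ := by
            by_contra h
            refine hU (U.base ?_)
            rw [univ_inter]
            exact h
          have hno' : ¬ (NoCut2 G ∨ Ham G) := fun h => hno ⟨hT, hcov, h⟩
          rw [not_or] at hno'
          have hsep : ∃ x y P Q, Sep G univ x y P Q := by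
            by_contra hcon
            push Not at hcon
            exact hno'.1 (noCut2_of_noSep hcon)
          have hdeg : ¬ ∀ v, dg G v = 2 := fun h => hno'.2 ⟨G, Subset.rfl, hT.1, h⟩
          refine ac_congr (fun t => ?_) (L1 G hGL hY hsep hdeg)
          constructor
          · exact ch_mono fun W hW => ⟨disc_of_x2 hW, fun _ => Or.inr hW⟩
          · exact ch_mono fun W hW => (hW.2 hT).resolve_left (hU' W)
      · refine ac_congr (fun t => ?_) (H30D.ac_disc G (by
          by_contra hcon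
          rw [not_or, not_exists] at hcon
          exact hT hcon))
        constructor
        · exact ch_mono fun W hW => ⟨hW, fun h => absurd h hT⟩
        · exact ch_mono fun W hW => hW.1)
  exact ⟨G, hGL, hGp, hT, hcard, hC, hN⟩

end H98TF
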