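import Pool.Agent.Lib.H85TF.Abs
import Pool.Agent.Lib.H98W.FIN
import Pool.Agent.Lib.H97W.FinD

/-!
# H98TF, file Draw: plane 2-factors in the language of simple drawings
-/

set_option autoImplicit false
set_option linter.unusedSectionVars false

open H53P SimpleDraw

namespace H98TF

open Finset H98P H98Z H98M H63F H30F H63L H97W

section

variable {V : Type*} [Fintype V] [DecidableEq V]

theorem gr_mono {F G : Finset (Sym2 V)} (h : F ⊆ G) : gr F ≤ gr G := by
  intro a b hab
  rw [SimpleGraph.fromEdgeSet_adj] at hab ⊢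
  exact ⟨by exact_mod_cast h (by exact_mod_cast hab.1), hab.2⟩

/-- A set on which `G` is not disconnected induces a connected graph. -/
theorem induce_connected {G : Finset (Sym2 V)} {U : Finset V} (hU : U.Nonempty) (h : ¬ Disc U G) :
    ((gr G).induce {v | v ∈ U}).Connected := by
  obtain ⟨u, hu⟩ := hU
  rw [SimpleGraph.connected_iff_exists_forall_reachable]
  refine ⟨⟨u, hu⟩, fun w => ?_⟩
  obtain ⟨p, -, hp⟩ := H85TF.path_of_not_disc h hu w.2
  exact ⟨p.induce {v | v ∈ U} hp⟩

theorem degree_gr {F : Finset (Sym2 V)} (hF : ∀ e ∈ F, ¬ e.IsDiag) (v : V) :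
    ((gr F).neighborSet v).ncard = H85TF.dg F v := by
  have h1 : (gr F).neighborSet v = ((univ.filter fun w => s(v, w) ∈ F : Finset V) : Set V) := by
    ext w
    rw [SimpleGraph.mem_neighborSet, SimpleGraph.fromEdgeSet_adj, mem_coe, mem_coe, mem_filter]
    constructor
    · exact fun h => ⟨mem_univ _, h.1⟩
    · refine fun h => ⟨h.2, ?_⟩
      rintro rfl
      exact hF _ h.2 (by simp)
  have h2 : (F.filter fun e => v ∈ e) = (univ.filter fun w => s(v, w) ∈ F).image fun w => s(v, w) := by
    ext e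
    rw [mem_filter, mem_image]
    constructor
    · rintro ⟨h3, h4⟩
      obtain ⟨w, rfl⟩ := Sym2.mem_iff_exists.1 h4
      exact ⟨w, mem_filter.2 ⟨mem_univ _, h3⟩, rfl⟩
    · rintro ⟨w, h3, rfl⟩
      exact ⟨(mem_filter.1 h3).2, Sym2.mem_mk_left _ _⟩
  rw [h1, Set.ncard_coe_finset]
  unfold H85TF.dg
  rw [h2, card_image_of_injective]
  intro a b hab
  rcases Sym2.eq_iff.1 hab with h | h
  · exact h.2
  · exact h.2.trans h.1

end

/-- PLANE 2-FACTORS: every simple drawing of `K_n`, `n ≥ 3`, has a plane 2-connected subdrawing on all vertices with a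
2-factor. -/
theorem twoFactor {n : ℕ} (hn : 3 ≤ n) (D : SimpleDrawing n) :
    ∃ G : SimpleGraph (Fin n), D.Plane G ∧ G.Connected ∧ (∀ v, (G.induce {w | w ≠ v}).Connected) ∧
      ∃ F ≤ G, ∀ v, (F.neighborSet v).ncard = 2 := by
  obtain ⟨G, hGL, hGP, hT, hT2, F, hF, -, h2⟩ := H85TF.plane_two_factor (H53P.crossT_symm (H53P.table D))
    (H98W.hd_table (H53P.table D)) (by rw [Fintype.card_fin]; exact hn)
  refine ⟨gr G, plane_of D hGP, ?_, fun v => ?_, gr F, gr_mono hF, fun v => ?_⟩
  · have h3 := induce_connected ⟨⟨0, by omega⟩, mem_univ _⟩ hT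
    have h4 : {v : Fin n | v ∈ (univ : Finset (Fin n))} = Set.univ := by
      ext v
      simp
    rw [h4] at h3
    exact (SimpleGraph.induceUnivIso (gr G)).connected_iff.1 h3
  · have h5 : (univ.erase v).Nonempty := by
      rw [← card_pos, card_erase_of_mem (mem_univ _), card_univ, Fintype.card_fin]
      omega
    have h3 := induce_connected h5 (hT2 v)
    have h4 : {w : Fin n | w ∈ univ.erase v} = {w | w ≠ v} := by
      ext w
      simp
    rw [h4] at h3
    exact h3
  · rw [degree_gr (fun e he => H85TF.not_diag_of_LW hGL e (hF he))]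
    exact h2 v (mem_univ _)

end H98TF
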