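import Pool.Agent.Lib.H98TF.Gen
import Pool.Agent.Lib.H63T.Fex

/-!
# H98TF, file Exact: the truncated functor step for an arbitrary covering predicate, `2n - 3` edges
-/

set_option autoImplicit false

namespace H98TF

open Finset H98P H98Z H98M H63F H30F H56V

variable {V : Type*} [Fintype V] [DecidableEq V]

/-- THE TRUNCATED FUNCTOR THEOREM for an increasing property `Good`. -/
theorem exactX {cross : Sym2 V → Sym2 V → Prop} (hsymm : ∀ e f, cross e f → cross f e)
    (hHD : ∀ W, HD cross W) (hV : ∃ x y : V, x ≠ y)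
    (X : Finset (Sym2 V) → Finset V → Prop) (Good : Finset (Sym2 V) → Prop)
    (hXm : ∀ G G', G ⊆ G' → G' ⊆ LW univ → ∀ W, X G' W → X G W)
    (hXd : ∀ G W, G ⊆ LW univ → X G W → Disc W G)
    (hg : ∀ G G', G ⊆ G' → G' ⊆ LW univ → Good G → Good G')
    (hac : ∀ G, G ⊆ LW univ → ¬ Good G → AC (Ch (X G))) :
    ∃ G : Finset (Sym2 V), G ⊆ LW univ ∧ Plane cross G ∧ Good G ∧
      2 * Fintype.card V ≤ G.card + 3 := by
  obtain ⟨S, G, -, hSG, hGL, hGP, hcard, hnac⟩ := H63T.functor_2n3 hsymm hHD hV X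
    (fun G G' h hG' _ _ W hW => hXm G G' h hG' W hW) (fun G W hG _ _ h => hXd G W hG h)
  refine ⟨G, hGL, hGP, hg S G hSG hGL ?_, hcard⟩
  by_contra hcon
  exact hnac (hac S (hSG.trans hGL) hcon)

/-- THE FUNCTOR STEP for a covering predicate `Pi`, with at least `2n - 3` edges. -/
theorem genericExact {cross : Sym2 V → Sym2 V → Prop} (hsymm : ∀ e f, cross e f → cross f e)
    (hHD : ∀ W, HD cross W) (h2 : 2 ≤ Fintype.card V) (Pi : Finset (Sym2 V) → Finset V → Prop)
    (mono : ∀ G G' : Finset (Sym2 V), G ⊆ G' → G' ⊆ LW univ → TC G → ∀ A, Pi G A → Pi G' A)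
    (dn : ∀ G : Finset (Sym2 V), G ⊆ LW univ → TC G → ∀ A B : Finset V, A ⊆ B → Pi G B → Pi G A)
    (h1 : ∀ G : Finset (Sym2 V), G ⊆ LW univ → TC G → ∀ v, Pi G {v})
    (E : ∀ G : Finset (Sym2 V), G ⊆ LW univ → TC G → ∀ (A : Finset V) (b d : V) (U : Finset V),
      Pi G (insert b A) → Pi G (insert d A) → b ∈ U → d ∈ U → ¬ Disc U G →
      (∀ u ∈ U, u ≠ b → u ≠ d → ¬ Pi G (insert u A)) → Pi G (insert b (insert d A))) :
    ∃ G : Finset (Sym2 V), G ⊆ LW univ ∧ Plane cross G ∧ TC G ∧ Pi G univ ∧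
      2 * Fintype.card V ≤ G.card + 3 := by
  have hV : ∃ x y : V, x ≠ y := by
    obtain ⟨x, y, h⟩ := Fintype.exists_pair_of_one_lt_card (α := V) (by omega)
    exact ⟨x, y, h⟩
  obtain ⟨G, hGL, hGp, ⟨hT, hP⟩, hcard⟩ := exactX hsymm hHD hV
    (fun G W => (TC G → ¬ Pi G W) ∧ Disc W G) (fun G => TC G ∧ Pi G univ)
    (fun G G' hGG hG' W hW => ⟨fun hT hP =>
      hW.1 (tc_mono hGG hT) (mono G G' hGG hG' hT W hP), H85TF.disc_anti hGG hW.2⟩)
    (fun G W _ h => h.2)
    (fun G G' hGG hG' h => ⟨tc_mono hGG h.1, mono G G' hGG hG' h.1 _ h.2⟩)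
    (fun G hGL hno => by
      by_cases hT : TC G
      · have hcov : ¬ Pi G univ := fun h => hno ⟨hT, h⟩
        have h3 := H96TF.ac_X G (Pi G) (dn G hGL hT)
          (dn G hGL hT ∅ {Classical.choose hV} (empty_subset _) (h1 G hGL hT _))
          (h1 G hGL hT) (E G hGL hT) hcov
        have h4 : (fun W : Finset V => ¬ Pi G W ∧ Disc W G) =
            fun W => (TC G → ¬ Pi G W) ∧ Disc W G := by
          funext W
          exact propext ⟨fun h => ⟨fun _ => h.1, h.2⟩, fun h => ⟨h.1 hT, h.2⟩⟩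
        rw [h4] at h3
        exact h3
      · have h3 : (fun W : Finset V => (TC G → ¬ Pi G W) ∧ Disc W G) = fun W => Disc W G := by
          funext W
          exact propext ⟨fun h => h.2, fun h => ⟨fun h5 => absurd h5 hT, h⟩⟩
        rw [h3]
        refine H30D.ac_disc G ?_
        by_contra hcon
        rw [not_or, not_exists] at hcon
        exact hT hcon)
  exact ⟨G, hGL, hGp, hT, hP, hcard⟩

end H98TF
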