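import Mathlib

/-!
# H98TF, file Cyc: the length of the cycles of a graph without triangles and without cycles of length four
-/

set_option autoImplicit false

namespace H98TF

variable {V : Type*} {F : SimpleGraph V}

theorem four_le (h3 : ∀ x y z, F.Adj x y → F.Adj y z → ¬ F.Adj x z) {v : V} (c : F.Walk v v)
    (hc : c.IsCycle) : 4 ≤ c.length := by
  have h := hc.three_le_length
  by_contra hlt
  have h4 : c.length = 3 := by omega
  match c, h4 with
  | .cons a (.cons b (.cons d .nil)), _ => exact h3 _ _ _ a b d.symm

theorem five_le (h3 : ∀ x y z, F.Adj x y → F.Adj y z → ¬ F.Adj x z)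
    (h4 : ∀ x y z w, x ≠ z → y ≠ w → F.Adj x y → F.Adj y z → F.Adj z w → ¬ F.Adj w x) {v : V}
    (c : F.Walk v v) (hc : c.IsCycle) : 5 ≤ c.length := by
  have h := four_le h3 c hc
  by_contra hlt
  have h5 : c.length = 4 := by omega
  match c, h5, hc with
  | .cons a (.cons b (.cons d (.cons e .nil))), _, hc =>
    have h6 := hc.support_nodup
    simp only [SimpleGraph.Walk.support_cons, SimpleGraph.Walk.support_nil, List.tail_cons,
      List.nodup_cons, List.mem_cons, List.not_mem_nil, or_false, not_or] at h6
    exact h4 _ _ _ _ (fun h => h6.2.1.2 h.symm) h6.1.2.1 a b d e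

end H98TF
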