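import Pool.Agent.Lib.H98TF.FunD
import Pool.Agent.Lib.H98TF.Cyc
import Pool.Agent.Lib.H77D4.Def
import Pool.Agent.Lib.H36R.CQ

/-!
# H98TF, file FunD4: the functor step and the drawing level of form D with cycles of length at least four
-/

set_option autoImplicit false
set_option linter.unusedSectionVars false

open H53P SimpleDraw

namespace H98TF

open Finset H98P H98Z H98M H63F H30F H63L H97W H85TF LD H77D4

section

variable {V : Type*} [Fintype V] [DecidableEq V]

/-- A Hamiltonian cycle on at least four vertices has no triangle. -/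
theorem nt_of_ham (h4 : 4 ≤ Fintype.card V) {F : Finset (Sym2 V)} (hF : ∀ e ∈ F, ¬ e.IsDiag)
    (hc : ¬ Disc univ F) (h2 : ∀ v, dg F v = 2) : H75U.NT F := by
  intro x y z h5 h6 h7
  have hcl := H36R.tri_closed hF (fun v => Or.inr (h2 v)) h5 h6 h7
  refine hc ⟨{x, y, z}, univ \ {x, y, z}, ⟨x, by simp⟩, ?_, disjoint_sdiff, by simp, ?_⟩
  · rw [← card_pos, card_sdiff_of_subset (subset_univ _), card_univ]
    have := card_le_three (a := x) (b := y) (c := z)
    omega
  · intro a ha b hb hab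
    exact (mem_sdiff.1 hb).2 (hcl a ha b hab)

/-- THE FUNCTOR STEP OF FORM D4. -/
theorem formD4 {cross : Sym2 V → Sym2 V → Prop} (hsymm : ∀ e f, cross e f → cross f e)
    (hHD : ∀ W, HD cross W) (h4 : 4 ≤ Fintype.card V)
    (L2 : ∀ E : Finset (Sym2 V), E ⊆ LW univ → TCY E univ → ∀ M : Finset V, ¬ Disc M E →
      U4 E univ M → AC (Ch fun W : Finset V => (U4 E univ W ∨ X2 E univ W) ∧ W ⊂ M))
    (L1 : ∀ E : Finset (Sym2 V), E ⊆ LW univ → TCY E univ → (∃ x y P Q, Sep E univ x y P Q) →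
      ¬ (∀ v, dg E v = 2) → AC (Ch fun W : Finset V => X2 E univ W)) :
    ∃ G : Finset (Sym2 V), G ⊆ LW univ ∧ Plane cross G ∧ TC G ∧ 2 * Fintype.card V ≤ G.card + 3 ∧
      (Ham G ∨ (NoCut2 G ∧ H75U.Cov4 G univ)) := by
  have hV : ∃ x y : V, x ≠ y := by
    obtain ⟨x, y, h⟩ := Fintype.exists_pair_of_one_lt_card (α := V) (by omega)
    exact ⟨x, y, h⟩
  obtain ⟨G, hGL, hGp, ⟨hT, hN⟩, hcard⟩ := exactX hsymm hHD hV
    (fun G W => Disc W G ∧ (TC G → U4 G univ W ∨ X2 G univ W))
    (fun G => TC G ∧ (Ham G ∨ (NoCut2 G ∧ H75U.Cov4 G univ)))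
    (fun G G' hGG _ W hW => ⟨H85TF.disc_anti hGG hW.1, fun hT =>
      (hW.2 (tc_mono hGG hT)).imp (fun h => h.anti hGG) (fun h => h.anti hGG)⟩)
    (fun G W _ h => h.1)
    (fun G G' hGG _ h => ⟨tc_mono hGG h.1, h.2.imp (ham_mono hGG)
      (fun h => ⟨noCut2_mono hGG h.1, H75U.cov4_edges hGG h.2⟩)⟩)
    (fun G hGL hno => by
      by_cases hT : TC G
      · have hY := tcy_of_tc (by omega) hGL hT
        by_cases hU : U4 G univ univ
        · refine ac_congr (fun t => ?_) (H30D.remove_univ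
            (P := fun W => U4 G univ W ∨ X2 G univ W) (G := G) (fun M hM hMc => ?_) (Or.inl hU))
          · constructor
            · exact ch_mono fun W hW => ⟨hW.2, fun _ => hW.1⟩
            · exact ch_mono fun W hW => ⟨hW.2 hT, hW.1⟩
          · exact L2 G hGL hY M hMc (hM.resolve_right fun h => hMc (disc_of_x2 h))
        · have hU' : ∀ W, ¬ U4 G univ W := fun W h => hU (h.up (subset_univ W))
          have hcov : H75U.Cov4 G univ := by
            by_contra h
            refine hU (U4.base (by rw [card_univ]; exact h4) ?_)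
            rw [univ_inter]
            exact h
          have hno' : ¬ (Ham G ∨ (NoCut2 G ∧ H75U.Cov4 G univ)) := fun h => hno ⟨hT, h⟩
          rw [not_or, not_and] at hno'
          have hsep : ∃ x y P Q, Sep G univ x y P Q := by
            by_contra hcon
            push Not at hcon
            exact hno'.2 (noCut2_of_noSep hcon) hcov
          have hdeg : ¬ ∀ v, dg G v = 2 := fun h => hno'.1 ⟨G, Subset.rfl, hT.1, h⟩
          refine ac_congr (fun t => ?_) (L1 G hGL hY hsep hdeg)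
          constructor
          · exact ch_mono fun W hW => ⟨disc_of_x2 hW, fun _ => Or.inr hW⟩
          · exact ch_mono fun W hW => (hW.2 hT).resolve_left (hU' W)
      · refine ac_congr (fun t => ?_) (H30D.ac_disc G (by
          by_contra hcon
          rw [not_or, not_exists] at hcon
          exact hT hcon))
        constructor
        · exact ch_mono fun W hW => ⟨hW, fun h => absurd h hT⟩
        · exact ch_mono fun W hW => hW.1)
  exact ⟨G, hGL, hGp, hT, hcard, hN⟩

end

theorem four_le_gr {n : ℕ} {F : Finset (Sym2 (Fin n))} (hF : H75U.NT F) {v : Fin n}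
    (c : (gr F).Walk v v) (hc : c.IsCycle) : 4 ≤ c.length := by
  have hm : ∀ {x y : Fin n}, (gr F).Adj x y → s(x, y) ∈ F := by
    intro x y h
    rw [SimpleGraph.fromEdgeSet_adj] at h
    exact_mod_cast h.1
  exact four_le (fun x y z a b d => hF x y z (hm a) (hm b) (hm d)) c hc

/-- FORM D4 for simple drawings, from the abstract form. -/
theorem draw_D4 {n : ℕ} (hn : 4 ≤ n) (D : SimpleDrawing n) {G : Finset (Sym2 (Fin n))}
    (hGL : G ⊆ LW univ) (hGP : Plane (crossT (H53P.table D)) G) (hT : TC G)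
    (hm : 2 * Fintype.card (Fin n) ≤ G.card + 3)
    (h : Ham G ∨ (NoCut2 G ∧ H75U.Cov4 G univ)) :
    ∃ G H F : SimpleGraph (Fin n), D.Plane G ∧ F ≤ H ∧ H ≤ G ∧ H.Connected ∧
      (∀ v, (H.induce {w | w ≠ v}).Connected) ∧ H.edgeSet.ncard = 2 * n - 3 ∧
      (∀ v, (F.neighborSet v).ncard = 2) ∧
      (∀ (v : Fin n) (c : F.Walk v v), c.IsCycle → 4 ≤ c.length) ∧
      ((∃ (v : Fin n) (c : F.Walk v v), c.IsHamiltonianCycle) ∨
        ∀ u v, (G.induce {w | w ≠ u ∧ w ≠ v}).Connected) := by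
  have hd := not_diag_of_LW hGL
  rcases h with ⟨F, hF, hc, h2⟩ | ⟨hN, F, hF, hnt, -, h2⟩
  · have hdF : ∀ e ∈ F, ¬ e.IsDiag := fun e he => hd e (hF he)
    obtain ⟨H, g1, g2, g3, g4, g5, g6⟩ := layer2 (by omega) D hGL hGP hT hF (fun v => (h2 v).le) hm
    exact ⟨gr G, H, gr F, g1, g6, g2, g3, g4, g5, fun v => (degree_gr hdF v).trans (h2 v),
      fun v c hcyc => four_le_gr (nt_of_ham (by rw [Fintype.card_fin]; exact hn) hdF hc h2) c hcyc,
      Or.inl ⟨⟨0, by omega⟩, ham_gr (by omega) hdF hc h2 _⟩⟩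
  · have hdF : ∀ e ∈ F, ¬ e.IsDiag := fun e he => hd e (hF he)
    obtain ⟨H, g1, g2, g3, g4, g5, g6⟩ := layer2 (by omega) D hGL hGP hT hF
      (fun v => (h2 v (mem_univ v)).le) hm
    exact ⟨gr G, H, gr F, g1, g6, g2, g3, g4, g5,
      fun v => (degree_gr hdF v).trans (h2 v (mem_univ v)),
      fun v c hcyc => four_le_gr hnt c hcyc, Or.inr (conn3 (by omega) hT hN)⟩

end H98TF
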