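import Pool.Agent.Lib.H98TF.Inst
import Pool.Agent.Lib.H98TF.Cyc
import Pool.Agent.Lib.H85TF.DrawX

/-!
# H98TF, file Fin: plane 2-factors with long cycles in simple drawings, exactly `2n - 3` edges
-/

set_option autoImplicit false

open H53P SimpleDraw

namespace H98TF

open Finset H98P H98Z H98M H63F H30F H63L H97W H85TF

theorem mem_of_gr {n : ℕ} {F : Finset (Sym2 (Fin n))} {x y : Fin n} (h : (gr F).Adj x y) : s(x, y) ∈ F := by
  rw [SimpleGraph.fromEdgeSet_adj] at h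
  exact_mod_cast h.1

/-- THE CYCLE CASE for simple drawings. -/
theorem draw_cycles {n : ℕ} (hn : 3 ≤ n) (D : SimpleDrawing n) :
    ∃ G : SimpleGraph (Fin n), D.Plane G ∧ G.Connected ∧ (∀ v, (G.induce {w | w ≠ v}).Connected) ∧
      G.edgeSet.ncard = 2 * n - 3 ∧ ∃ F ≤ G, (∀ v, (F.neighborSet v).ncard = 2) ∧
        ∀ (v : Fin n) (c : F.Walk v v), c.IsCycle → min n 5 ≤ c.length := by
  obtain ⟨G, hGL, hGP, hT, hm, F, hF, h2, h4, h5⟩ := exact_cycles (H53P.crossT_symm (H53P.table D))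
    (H98W.hd_table (H53P.table D)) (by rw [Fintype.card_fin]; exact hn)
  rw [Fintype.card_fin] at hm h4 h5
  obtain ⟨H, g1, g2, g3, g4, g5, g6⟩ := toDrawingExact hn D hGL hGP hT.1 hT.2 hF
    (fun v => (h2 v).le) hm
  refine ⟨H, g1, g2, g3, g4, gr F, g5, fun v => (g6 v).trans (h2 v), fun v c hc => ?_⟩
  by_cases hn4 : 4 ≤ n
  · have n3 : ∀ x y z, (gr F).Adj x y → (gr F).Adj y z → ¬ (gr F).Adj x z := fun x y z a b d =>
      h4 hn4 x y z (mem_of_gr a) (mem_of_gr b) (mem_of_gr d)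
    by_cases hn5 : 5 ≤ n
    · have := five_le n3 (fun x y z w hxz hyw a b d e =>
        h5 hn5 x y z w hxz hyw (mem_of_gr a) (mem_of_gr b) (mem_of_gr d) (mem_of_gr e)) c hc
      omega
    · have := four_le n3 c hc
      omega
  · have := hc.three_le_length
    omega

/-- THE PATH CASE for simple drawings, from the abstract form. -/
theorem draw_pair_of {n : ℕ} (hn : 3 ≤ n) (D : SimpleDrawing n) {s t : Fin n}
    {G F : Finset (Sym2 (Fin n))} (hGL : G ⊆ LW univ) (hGP : Plane (crossT (H53P.table D)) G)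
    (hT : TC G) (hm : 2 * Fintype.card (Fin n) ≤ G.card + 3) (hF : F ⊆ G) (hst : s(s, t) ∉ F)
    (h2 : ∀ v, dg F v = if v = s ∨ v = t then 1 else 2) :
    ∃ G : SimpleGraph (Fin n), D.Plane G ∧ G.Connected ∧ (∀ v, (G.induce {w | w ≠ v}).Connected) ∧
      G.edgeSet.ncard = 2 * n - 3 ∧ gr F ≤ G ∧
        (∀ v, ((gr F).neighborSet v).ncard = if v = s ∨ v = t then 1 else 2) ∧ ¬ (gr F).Adj s t := by
  rw [Fintype.card_fin] at hm
  obtain ⟨H, g1, g2, g3, g4, g5, g6⟩ := toDrawingExact hn D hGL hGP hT.1 hT.2 hF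
    (fun v => by rw [h2 v]; split_ifs <;> omega) hm
  exact ⟨H, g1, g2, g3, g4, g5, fun v => (g6 v).trans (h2 v), fun h => hst (mem_of_gr h)⟩

end H98TF
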