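import Pool.Agent.Lib.H63D.E
import Pool.Agent.Lib.H4TF.L3

/-!
# H98TF, file FinD: a plane edge set with a 2-factor which is 3-connected or contains a Hamiltonian cycle
-/

set_option autoImplicit false

namespace H98TF

open Finset H98P H98Z H98M H63F H30F H85TF

/-- FORM D, abstract level. -/
theorem planeD {V : Type} [Fintype V] [DecidableEq V] {cross : Sym2 V → Sym2 V → Prop}
    (hsymm : ∀ e f, cross e f → cross f e) (hHD : ∀ W, HD cross W) (h3 : 3 ≤ Fintype.card V) :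
    ∃ G : Finset (Sym2 V), G ⊆ LW univ ∧ Plane cross G ∧ TC G ∧ Cov G univ ∧
      (NoCut2 G ∨ Ham G) ∧ 2 * Fintype.card V ≤ G.card + 3 := by
  obtain ⟨G, hGL, hGP, ⟨hT, hP, hQ⟩, hcard⟩ := H63D.formG hsymm hHD (by omega) Cov
    (fun G G' hGG _ _ A hA => cov_edges hGG hA)
    (fun G _ _ A B hAB hB => cov_sub hAB hB)
    (fun G => NoCut2 G ∨ Ham G)
    (fun G G' hGG h => h.imp (noCut2_mono hGG) (ham_mono hGG))
    (fun G hGL hT hno => H63D.l1 h3 hGL hT hno)
    (fun G hGL hT hP => by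
      refine ac_congr (fun t => ?_) (H4TF.L2' (H85TF.not_diag_of_LW hGL) h3 hT.1 hT.2 hP)
      constructor
      · exact ch_mono fun W hW => ⟨hW.2, hW.1⟩
      · exact ch_mono fun W hW => ⟨hW.2, hW.1⟩)
  exact ⟨G, hGL, hGP, hT, hP, hQ, hcard⟩

end H98TF
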