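import Pool.Agent.Lib.H98TF.FunD4

/-!
# H98TF, file FunR: the functor step of form D4 relative to an arbitrary graph `R` (idea: helper96)
-/

set_option autoImplicit false
set_option linter.unusedSectionVars false

open H53P SimpleDraw

namespace H98TF

open Finset H98P H98Z H98M H63F H30F H63L H97W H85TF LD H77D4

variable {V : Type*} [Fintype V] [DecidableEq V]

/-- THE FUNCTOR STEP OF FORM D4, relative to an arbitrary graph `R`. -/
theorem formD4R {cross : Sym2 V → Sym2 V → Prop} (hsymm : ∀ e f, cross e f → cross f e)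
    (hHD : ∀ W, HD cross W) (h4 : 4 ≤ Fintype.card V) {R : Finset (Sym2 V)} (hR : R ⊆ LW univ)
    (L2 : ∀ E : Finset (Sym2 V), E ⊆ LW univ → TCY E univ → ∀ M : Finset V, ¬ Disc M E →
      U4 E univ M → AC (Ch fun W : Finset V => (U4 E univ W ∨ X2 E univ W) ∧ W ⊂ M))
    (L1 : ∀ E : Finset (Sym2 V), E ⊆ LW univ → TCY E univ → (∃ x y P Q, Sep E univ x y P Q) →
      ¬ (∀ v, dg E v = 2) → AC (Ch fun W : Finset V => X2 E univ W)) :
    ∃ G : Finset (Sym2 V), G ⊆ LW univ ∧ Plane cross G ∧ TC G ∧ 2 * Fintype.card V ≤ G.card + 3 ∧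
      ((∃ F ⊆ G, ¬ Disc univ (F ∪ R) ∧ ∀ v, dg (F ∪ R) v = 2) ∨
        (NoCut2 (G ∪ R) ∧ H75U.Cov4 (G ∪ R) univ)) := by
  have hV : ∃ x y : V, x ≠ y := by
    obtain ⟨x, y, h⟩ := Fintype.exists_pair_of_one_lt_card (α := V) (by omega)
    exact ⟨x, y, h⟩
  have hu : ∀ {G G' : Finset (Sym2 V)}, G ⊆ G' → G ∪ R ⊆ G' ∪ R := fun h =>
    union_subset_union h Subset.rfl
  obtain ⟨G, hGL, hGp, ⟨hT, hN⟩, hcard⟩ := exactX hsymm hHD hV
    (fun G W => Disc W G ∧ (TC G → U4 (G ∪ R) univ W ∨ X2 (G ∪ R) univ W))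
    (fun G => TC G ∧ ((∃ F ⊆ G, ¬ Disc univ (F ∪ R) ∧ ∀ v, dg (F ∪ R) v = 2) ∨
      (NoCut2 (G ∪ R) ∧ H75U.Cov4 (G ∪ R) univ)))
    (fun G G' hGG _ W hW => ⟨H85TF.disc_anti hGG hW.1, fun hT =>
      (hW.2 (tc_mono hGG hT)).imp (fun h => h.anti (hu hGG)) (fun h => h.anti (hu hGG))⟩)
    (fun G W _ h => h.1)
    (fun G G' hGG _ h => ⟨tc_mono hGG h.1, h.2.imp
      (fun ⟨F, hF, h1⟩ => ⟨F, hF.trans hGG, h1⟩)
      (fun h => ⟨noCut2_mono (hu hGG) h.1, H75U.cov4_edges (hu hGG) h.2⟩)⟩)
    (fun G hGL hno => by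
      by_cases hT : TC G
      · have hEL : G ∪ R ⊆ LW univ := union_subset hGL hR
        have hTE : TC (G ∪ R) := tc_mono subset_union_left hT
        have hY := tcy_of_tc (by omega) hEL hTE
        by_cases hU : U4 (G ∪ R) univ univ
        · refine ac_congr (fun t => ?_) (H30D.remove_univ
            (P := fun W => U4 (G ∪ R) univ W ∨ X2 (G ∪ R) univ W) (G := G) (fun M hM hMc => ?_)
            (Or.inl hU))
          · constructor
            · exact ch_mono fun W hW => ⟨hW.2, fun _ => hW.1⟩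
            · exact ch_mono fun W hW => ⟨hW.2 hT, hW.1⟩
          · have hMc' : ¬ Disc M (G ∪ R) := fun h => hMc (H85TF.disc_anti subset_union_left h)
            exact L2 (G ∪ R) hEL hY M hMc' (hM.resolve_right fun h => hMc' (disc_of_x2 h))
        · have hU' : ∀ W, ¬ U4 (G ∪ R) univ W := fun W h => hU (h.up (subset_univ W))
          have hcov : H75U.Cov4 (G ∪ R) univ := by
            by_contra h
            refine hU (U4.base (by rw [card_univ]; exact h4) ?_)
            rw [univ_inter]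
            exact h
          have hno' : ¬ ((∃ F ⊆ G, ¬ Disc univ (F ∪ R) ∧ ∀ v, dg (F ∪ R) v = 2) ∨
              (NoCut2 (G ∪ R) ∧ H75U.Cov4 (G ∪ R) univ)) := fun h => hno ⟨hT, h⟩
          rw [not_or, not_and] at hno'
          have hsep : ∃ x y P Q, Sep (G ∪ R) univ x y P Q := by
            by_contra hcon
            push Not at hcon
            exact hno'.2 (noCut2_of_noSep hcon) hcov
          have hdeg : ¬ ∀ v, dg (G ∪ R) v = 2 := fun h => hno'.1 ⟨G, Subset.rfl, hTE.1, h⟩
          refine ac_congr (fun t => ?_) (L1 (G ∪ R) hEL hY hsep hdeg)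
          constructor
          · exact ch_mono fun W hW => ⟨H85TF.disc_anti subset_union_left (disc_of_x2 hW),
              fun _ => Or.inr hW⟩
          · exact ch_mono fun W hW => (hW.2 hT).resolve_left (hU' W)
      · refine ac_congr (fun t => ?_) (H30D.ac_disc G (by
          by_contra hcon
          rw [not_or, not_exists] at hcon
          exact hT hcon))
        constructor
        · exact ch_mono fun W hW => ⟨hW, fun h => absurd h hT⟩
        · exact ch_mono fun W hW => hW.1)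
  exact ⟨G, hGL, hGp, hT, hcard, hN⟩

end H98TF
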