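import Mathlib

/-!
# H98TF, file Ham: a connected graph in which every vertex has two neighbours is a Hamiltonian cycle
-/

set_option autoImplicit false

namespace H98TF

theorem ham_of_conn {V : Type*} [Fintype V] [DecidableEq V] {F : SimpleGraph V} (hc : F.Connected)
    (h2 : ∀ v, (F.neighborSet v).ncard = 2) (v : V) : ∃ c : F.Walk v v, c.IsHamiltonianCycle := by
  have hcyc : F.IsCycles := fun v _ => h2 v
  have hne : (F.neighborSet v).Nonempty := by
    rw [Set.nonempty_iff_ne_empty]
    intro h
    have h3 := h2 v
    rw [h, Set.ncard_empty] at h3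
    omega
  obtain ⟨p, hp, hv⟩ := hcyc.exists_cycle_toSubgraph_verts_eq_connectedComponentSupp
    (c := F.connectedComponentMk v) (v := v) (by simp) hne
  refine ⟨p, ?_⟩
  rw [SimpleGraph.Walk.isHamiltonianCycle_iff_isCycle_and_support_count_tail_eq_one]
  refine ⟨hp, fun a => ?_⟩
  have h3 : a ∈ p.support := by
    rw [← SimpleGraph.Walk.mem_verts_toSubgraph, hv, SimpleGraph.ConnectedComponent.mem_supp_iff,
      SimpleGraph.ConnectedComponent.eq]
    exact hc.preconnected a v
  have h4 : a ∈ p.support.tail := by
    rw [← SimpleGraph.Walk.cons_tail_support, List.mem_cons] at h3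
    rcases h3 with h3 | h3
    · rw [h3]
      exact SimpleGraph.Walk.end_mem_tail_support hp.not_nil
    · exact h3
  exact List.count_eq_one_of_mem hp.support_nodup h4

end H98TF
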