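import Pool.Agent.Lib.H98TF.Exact
import Pool.Agent.Lib.H50TF.Vt
import Pool.Agent.Lib.H9TP.C5
import Pool.Agent.Lib.H32L5.D

/-!
# H98TF, file Inst: plane 2-factors with long cycles, `2n - 3` edges, abstract form
-/

set_option autoImplicit false

namespace H98TF

open Finset H98P H98Z H98M H63F H30F H85TF

variable {V : Type*} [Fintype V] [DecidableEq V]

/-- No cycle of length four. -/
def NQ (F : Finset (Sym2 V)) : Prop :=
  ∀ x y z w : V, x ≠ z → y ≠ w → s(x, y) ∈ F → s(y, z) ∈ F → s(z, w) ∈ F → s(w, x) ∉ F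

theorem exact3 {cross : Sym2 V → Sym2 V → Prop} (hsymm : ∀ e f, cross e f → cross f e)
    (hHD : ∀ W, HD cross W) (h3 : 3 ≤ Fintype.card V) :
    ∃ G : Finset (Sym2 V), G ⊆ LW univ ∧ Plane cross G ∧ TC G ∧ Cov G univ ∧
      2 * Fintype.card V ≤ G.card + 3 :=
  genericExact hsymm hHD (by omega) Cov (fun _ _ h _ _ _ hA => cov_edges h hA)
    (fun _ _ _ _ _ h hB => cov_sub h hB)
    (fun _ hG hT => cov_vertex (H85TF.not_diag_of_LW hG) h3 hT.1 hT.2)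
    (fun _ hG _ _ _ _ _ hb hd hbU hdU hU hin =>
      exch_set (H85TF.not_diag_of_LW hG) hb hd hbU hdU hU hin)

theorem exact4 {cross : Sym2 V → Sym2 V → Prop} (hsymm : ∀ e f, cross e f → cross f e)
    (hHD : ∀ W, HD cross W) (h4 : 4 ≤ Fintype.card V) :
    ∃ G : Finset (Sym2 V), G ⊆ LW univ ∧ Plane cross G ∧ TC G ∧ H50TF.Cov4 G univ ∧
      2 * Fintype.card V ≤ G.card + 3 :=
  genericExact hsymm hHD (by omega) H50TF.Cov4 (fun _ _ h _ _ _ hA => H50TF.cov4_edges h hA)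
    (fun _ _ _ _ _ h hB => H50TF.cov4_sub h hB)
    (fun _ hG hT => H50TF.cov4_vertex (H85TF.not_diag_of_LW hG) h4 hT.1 hT.2)
    (fun _ hG _ _ _ _ _ hb hd hbU hdU hU hin =>
      H50TF.exch4_set (H85TF.not_diag_of_LW hG) hb hd hbU hdU hU hin)

theorem exact5 {cross : Sym2 V → Sym2 V → Prop} (hsymm : ∀ e f, cross e f → cross f e)
    (hHD : ∀ W, HD cross W) (h5 : 5 ≤ Fintype.card V) :
    ∃ G : Finset (Sym2 V), G ⊆ LW univ ∧ Plane cross G ∧ (TC G ∧ H8F.Cov5 G univ) ∧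
      2 * Fintype.card V ≤ G.card + 3 := by
  obtain ⟨x, y, hxy⟩ := Fintype.exists_pair_of_one_lt_card (α := V) (by omega)
  exact exactX hsymm hHD ⟨x, y, hxy⟩ H8F.X5 (fun G => TC G ∧ H8F.Cov5 G univ)
    (fun G G' h hG' W hW => H8F.x5_anti h5 h hG' hW) (fun G W _ h => H8F.x5_disc h)
    (fun G G' h _ hG => H8F.good_mono h hG)
    (fun G hG hno => H8F.ac_x5 h5 hG (fun _ => H9TP.exch5_LW hG)
      (fun hT v hv => H32L5.class5 (H85TF.not_diag_of_LW hG) h5 hT.1 hT.2 v hv) hno)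

/-- THE CYCLE CASE: all cycles of `F` have length at least `min n 5`. -/
theorem exact_cycles {cross : Sym2 V → Sym2 V → Prop} (hsymm : ∀ e f, cross e f → cross f e)
    (hHD : ∀ W, HD cross W) (h3 : 3 ≤ Fintype.card V) :
    ∃ G : Finset (Sym2 V), G ⊆ LW univ ∧ Plane cross G ∧ TC G ∧ 2 * Fintype.card V ≤ G.card + 3 ∧
      ∃ F ⊆ G, (∀ v, dg F v = 2) ∧ (4 ≤ Fintype.card V → H50TF.NT F) ∧
        (5 ≤ Fintype.card V → NQ F) := by
  by_cases h4 : 4 ≤ Fintype.card V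
  · by_cases h5 : 5 ≤ Fintype.card V
    · obtain ⟨G, h1, h2, ⟨h6, F, h7, h8, h9, h10, h11⟩, h12⟩ := exact5 hsymm hHD h5
      exact ⟨G, h1, h2, h6, h12, F, h7, fun v => h11 v (mem_univ v), fun _ => h9, fun _ => h10⟩
    · obtain ⟨G, h1, h2, h6, ⟨F, h7, h8, h9, h11⟩, h12⟩ := exact4 hsymm hHD h4
      exact ⟨G, h1, h2, h6, h12, F, h7, fun v => h11 v (mem_univ v), fun _ => h9,
        fun h => absurd h h5⟩
  · obtain ⟨G, h1, h2, h6, ⟨F, h7, h8, h11⟩, h12⟩ := exact3 hsymm hHD h3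
    exact ⟨G, h1, h2, h6, h12, F, h7, fun v => h11 v (mem_univ v), fun h => absurd h h4,
      fun h => absurd h (by omega)⟩

end H98TF
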